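import Pool.Agent.Lib.MP_b5021c_nt.IfaceF

/-!
Row AS1: merging two ports (Asano).
-/

namespace Pool.Agent.B5.H17

open Pool.Agent.B5

/-- AS1. -/
theorem as1 : Asano1S := by
  intro a b c d h x hx hzero
  have ha : a ≠ 0 := by
    have := h 0 0 (by simp) (by simp)
    simpa using this
  have hda : ‖d‖ ≤ ‖a‖ := by
    by_contra hlt
    push Not at hlt
    have hd : d ≠ 0 := by
      rintro rfl
      rw [norm_zero] at hlt
      exact absurd hlt (not_lt.2 (norm_nonneg _))
    obtain ⟨s, hs⟩ := IsAlgClosed.exists_pow_nat_eq ((b + c) ^ 2 - 4 * a * d) (n := 2) two_pos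
    set r1 := (-(b + c) + s) / (2 * d) with hr1
    set r2 := (-(b + c) - s) / (2 * d) with hr2
    have hprod : r1 * r2 = a / d := by
      rw [hr1, hr2]
      field_simp
      linear_combination -hs
    have e1 : a + b * r1 + c * r1 + d * (r1 * r1) = 0 := by
      rw [hr1]
      field_simp
      linear_combination hs
    have e2 : a + b * r2 + c * r2 + d * (r2 * r2) = 0 := by
      rw [hr2]
      field_simp
      linear_combination hs
    have hn : ‖r1‖ * ‖r2‖ < 1 := by
      rw [← norm_mul, hprod, norm_div, div_lt_one (norm_pos_iff.2 hd)]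
      exact hlt
    rcases lt_or_ge ‖r1‖ 1 with h1 | h1
    · exact h r1 r1 h1 h1 e1
    · have h2 : ‖r2‖ < 1 := by
        nlinarith [norm_nonneg r2]
      exact h r2 r2 h2 h2 e2
  have h3 : ‖a‖ = ‖d‖ * ‖x‖ := by
    have : a = -(d * x) := by linear_combination hzero
    rw [this, norm_neg, norm_mul]
  have hd0 : 0 < ‖d‖ := by
    by_contra h0
    have : ‖d‖ = 0 := le_antisymm (not_lt.1 h0) (norm_nonneg _)
    rw [this, zero_mul] at h3
    exact ha (norm_eq_zero.1 h3)
  have : ‖d‖ * ‖x‖ < ‖d‖ * 1 := mul_lt_mul_of_pos_left hx hd0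
  linarith

end Pool.Agent.B5.H17
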