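import Pool.Agent.Lib.MP_b5021c_nt.IfaceD

/-!
Row E1C: factors of elements of the classes.
-/

namespace Pool.Agent.B5.H17

open Pool.Agent.B5 Polynomial
open scoped LaurentPolynomial

variable {O : Type} [CommRing O] [IsDomain O] [Coef O]

omit [IsDomain O] [Coef O] in
lemma lau_nf (p : RO O) (hp : p ≠ 0) :
    ∃ (n : ℤ) (q : O[X]), p = LaurentPolynomial.T n * Polynomial.toLaurent q ∧ q.coeff 0 ≠ 0 := by
  obtain ⟨n, f, hf⟩ := LaurentPolynomial.exists_T_pow p
  have hf0 : f ≠ 0 := by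
    rintro rfl
    rw [map_zero] at hf
    have h1 : p * LaurentPolynomial.T (n : ℤ) * LaurentPolynomial.T (-(n : ℤ)) = 0 := by
      rw [← hf, zero_mul]
    rw [mul_assoc, ← LaurentPolynomial.T_add, add_neg_cancel, LaurentPolynomial.T_zero, mul_one] at h1
    exact hp h1
  obtain ⟨g, hg⟩ : X ^ f.natTrailingDegree ∣ f := by
    rw [X_pow_dvd_iff]
    intro d hd
    exact coeff_eq_zero_of_lt_natTrailingDegree hd
  refine ⟨(f.natTrailingDegree : ℤ) - n, g, ?_, ?_⟩
  · have h1 : p = Polynomial.toLaurent f * LaurentPolynomial.T (-(n : ℤ)) := by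
      rw [hf, mul_assoc, ← LaurentPolynomial.T_add, add_neg_cancel, LaurentPolynomial.T_zero,
        mul_one]
    rw [h1]
    conv_lhs => rw [hg]
    rw [map_mul, Polynomial.toLaurent_X_pow, sub_eq_add_neg, LaurentPolynomial.T_add]
    ring
  · have h2 : f.coeff f.natTrailingDegree = g.coeff 0 := by
      have h3 := congrArg (fun x : O[X] => x.coeff f.natTrailingDegree) hg
      beta_reduce at h3
      have h4 := coeff_X_pow_mul g f.natTrailingDegree 0
      rw [zero_add] at h4
      rw [h3, h4]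
    rw [← h2]
    exact trailingCoeff_nonzero_iff_nonzero.2 hf0

omit [IsDomain O] [Coef O] in
lemma lau_aux (n : ℕ) (f g : O[X])
    (h : LaurentPolynomial.T (n : ℤ) * Polynomial.toLaurent f = Polynomial.toLaurent g)
    (hg : g.coeff 0 ≠ 0) : n = 0 ∧ f = g := by
  have h1 : X ^ n * f = g := by
    apply Polynomial.toLaurent_injective
    rw [map_mul, Polynomial.toLaurent_X_pow, h]
  rcases Nat.eq_zero_or_pos n with rfl | hn
  · refine ⟨rfl, ?_⟩
    rwa [pow_zero, one_mul] at h1
  · exfalso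
    apply hg
    rw [← h1, mul_coeff_zero, coeff_X_pow, if_neg (by omega), zero_mul]

omit [IsDomain O] [Coef O] in
lemma lau_uniq (a b : ℤ) (f g : O[X]) (hf : f.coeff 0 ≠ 0) (hg : g.coeff 0 ≠ 0)
    (h : LaurentPolynomial.T a * Polynomial.toLaurent f =
      LaurentPolynomial.T b * Polynomial.toLaurent g) : f = g := by
  have key : ∀ (a b : ℤ) (f g : O[X]), f.coeff 0 ≠ 0 → g.coeff 0 ≠ 0 → b ≤ a →
      LaurentPolynomial.T a * Polynomial.toLaurent f =
        LaurentPolynomial.T b * Polynomial.toLaurent g → f = g := by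
    intro a b f g _ hg hab h
    have h1 : LaurentPolynomial.T (((a - b).toNat : ℕ) : ℤ) * Polynomial.toLaurent f =
        Polynomial.toLaurent g := by
      have h2 := congrArg (fun x => LaurentPolynomial.T (-b) * x) h
      simp only [← mul_assoc, ← LaurentPolynomial.T_add, neg_add_cancel, LaurentPolynomial.T_zero,
        one_mul] at h2
      rw [Int.toNat_of_nonneg (by omega), sub_eq_add_neg, add_comm a (-b)]
      exact h2
    exact (lau_aux _ f g h1 hg).2
  rcases le_total b a with hab | hab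
  · exact key a b f g hf hg hab h
  · exact (key b a g f hg hf hab h.symm).symm

omit [Coef O] in
/-- The two factors in normal form. -/
lemma split_nf (p q : RO O) (n : ℤ) (f : O[X])
    (h : p * q = LaurentPolynomial.T n * Polynomial.toLaurent f) (hf : f.coeff 0 ≠ 0) :
    ∃ (a b : ℤ) (p' q' : O[X]), p = LaurentPolynomial.T a * Polynomial.toLaurent p' ∧
      q = LaurentPolynomial.T b * Polynomial.toLaurent q' ∧ p'.coeff 0 ≠ 0 ∧ q'.coeff 0 ≠ 0 ∧
      f = p' * q' := by
  have hne : LaurentPolynomial.T n * Polynomial.toLaurent f ≠ 0 := by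
    intro h0
    have h1 := congrArg (fun x => LaurentPolynomial.T (-n) * x) h0
    simp only [← mul_assoc, ← LaurentPolynomial.T_add, neg_add_cancel, LaurentPolynomial.T_zero,
      one_mul, mul_zero] at h1
    have h2 : f = 0 := Polynomial.toLaurent_injective (by rw [h1, map_zero])
    rw [h2] at hf
    exact hf (coeff_zero 0)
  have hp : p ≠ 0 := by
    rintro rfl
    rw [zero_mul] at h
    exact hne h.symm
  have hq : q ≠ 0 := by
    rintro rfl
    rw [mul_zero] at h
    exact hne h.symm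
  obtain ⟨a, p', hp', hp0⟩ := lau_nf p hp
  obtain ⟨b, q', hq', hq0⟩ := lau_nf q hq
  refine ⟨a, b, p', q', hp', hq', hp0, hq0, ?_⟩
  have h3 : LaurentPolynomial.T (a + b) * Polynomial.toLaurent (p' * q') =
      LaurentPolynomial.T n * Polynomial.toLaurent f := by
    rw [← h, hp', hq', LaurentPolynomial.T_add, map_mul]
    ring
  refine (lau_uniq (a + b) n (p' * q') f ?_ hf h3).symm
  rw [mul_coeff_zero]
  exact mul_ne_zero hp0 hq0

/-- E1C. -/
theorem e1c : E1S := by
  intro O _ _ _ _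
  constructor
  · rintro N p q ⟨hN, n, f, hf, hfN, hz⟩
    have hf0 : f.coeff 0 ≠ 0 := by
      intro h0
      rw [h0, map_zero, norm_zero] at hfN
      linarith
    obtain ⟨a, b, p', q', hp, hq, hp0, hq0, rfl⟩ := split_nf p q n f hf hf0
    refine ⟨‖(Coef.emb (p'.coeff 0) : ℂ)‖, ‖(Coef.emb (q'.coeff 0) : ℂ)‖,
      ⟨Coef.one_le _ hp0, a, p', hp, rfl, ?_⟩, ⟨Coef.one_le _ hq0, b, q', hq, rfl, ?_⟩, ?_⟩
    · intro z hz1 h0
      apply hz z hz1
      rw [Polynomial.map_mul, eval_mul, h0, zero_mul]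
    · intro z hz1 h0
      apply hz z hz1
      rw [Polynomial.map_mul, eval_mul, h0, mul_zero]
    · rw [← hfN, mul_coeff_zero, map_mul, norm_mul]
  · rintro θ p q ⟨hθ, n, f, hf, hf1, w, hw, hroots⟩
    have hf0 : f.coeff 0 ≠ 0 := by
      intro h0
      rw [h0, map_zero, norm_zero] at hf1
      exact zero_ne_one hf1
    obtain ⟨a, b, p', q', hp, hq, hp0, hq0, rfl⟩ := split_nf p q n f hf hf0
    have hpn := Coef.one_le _ hp0
    have hqn := Coef.one_le _ hq0
    have hpq : ‖(Coef.emb (p'.coeff 0) : ℂ)‖ * ‖(Coef.emb (q'.coeff 0) : ℂ)‖ = 1 := by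
      rw [← hf1, mul_coeff_zero, map_mul, norm_mul]
    have hpn1 : ‖(Coef.emb (p'.coeff 0) : ℂ)‖ = 1 := by nlinarith
    have hqn1 : ‖(Coef.emb (q'.coeff 0) : ℂ)‖ = 1 := by nlinarith
    have hmap0 : ∀ g : O[X], g.coeff 0 ≠ 0 → g.map (Coef.emb : O →+* ℂ) ≠ 0 := by
      intro g hg h0
      have h1 : (g.map (Coef.emb : O →+* ℂ)).coeff 0 = 0 := by rw [h0, coeff_zero]
      rw [coeff_map] at h1
      exact hg (emb_inj (by rw [h1, map_zero]))
    have hp'0 := hmap0 p' hp0
    have hq'0 := hmap0 q' hq0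
    rw [Polynomial.map_mul, roots_mul (mul_ne_zero hp'0 hq'0), Multiset.filter_add] at hroots
    have hzf : ∀ g : O[X], g.map (Coef.emb : O →+* ℂ) ≠ 0 →
        (g.map (Coef.emb : O →+* ℂ)).roots.filter (fun x => ‖x‖ < 1) = 0 →
        ∀ z : ℂ, ‖z‖ < 1 → (g.map (Coef.emb : O →+* ℂ)).eval z ≠ 0 := by
      intro g hg hg0 z hz h0
      have : z ∈ (g.map (Coef.emb : O →+* ℂ)).roots.filter (fun x => ‖x‖ < 1) :=
        Multiset.mem_filter.2 ⟨(mem_roots hg).2 h0, hz⟩
      rw [hg0] at this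
      exact Multiset.notMem_zero z this
    have hcases : ((p'.map (Coef.emb : O →+* ℂ)).roots.filter (fun x => ‖x‖ < 1) = 0 ∧
        (q'.map (Coef.emb : O →+* ℂ)).roots.filter (fun x => ‖x‖ < 1) = {w}) ∨
        ((p'.map (Coef.emb : O →+* ℂ)).roots.filter (fun x => ‖x‖ < 1) = {w} ∧
        (q'.map (Coef.emb : O →+* ℂ)).roots.filter (fun x => ‖x‖ < 1) = 0) := by
      have hc := congrArg Multiset.card hroots
      rw [Multiset.card_add, Multiset.card_singleton] at hc
      rcases Nat.eq_zero_or_pos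
        (Multiset.card ((p'.map (Coef.emb : O →+* ℂ)).roots.filter (fun x => ‖x‖ < 1))) with h | h
      · left
        have h0 := Multiset.card_eq_zero.1 h
        rw [h0, zero_add] at hroots
        exact ⟨h0, hroots⟩
      · right
        have h0 := Multiset.card_eq_zero.1 (show Multiset.card
          ((q'.map (Coef.emb : O →+* ℂ)).roots.filter (fun x => ‖x‖ < 1)) = 0 by omega)
        rw [h0, add_zero] at hroots
        exact ⟨hroots, h0⟩
    rcases hcases with ⟨h1, h2⟩ | ⟨h1, h2⟩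
    · right
      exact ⟨⟨le_rfl, a, p', hp, hpn1, hzf p' hp'0 h1⟩, hθ, b, q', hq, hqn1, w, hw, h2⟩
    · left
      exact ⟨⟨hθ, a, p', hp, hpn1, w, hw, h1⟩, le_rfl, b, q', hq, hqn1, hzf q' hq'0 h2⟩

end Pool.Agent.B5.H17
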