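import Pool.Agent.Lib.MP_b5021c_nt.IfaceF

/-!
Row F2C.
-/

namespace Pool.Agent.B5.H17

open Pool.Agent.B5

/-- F2C. -/
theorem f2c (hF1 : F1S) : F2S := by
  intro O _ _ _ _ P L _ _ _ _ _ phi D S S' eta hphi hbin hS hS' hnot i
  obtain ⟨hSs, hS0, lam, hlS, hlam⟩ := hS
  obtain ⟨hSs', hS0', _⟩ := hS'
  have hbS := hbin S hSs
  have hbS' := hbin S' hSs'
  by_contra hcon
  push Not at hcon
  obtain ⟨h1, h2⟩ := hcon
  have h1' : phi S i = 1 := (hbS i).resolve_left h1
  have h2' : phi S' i = 1 := (hbS' i).resolve_left h2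
  have hF := hF1 O P L phi D S' eta hphi hbin hbS' hS0' S hnot
  have hsub : ∀ j, phi S' j = 1 → phi S j = 1 := by
    intro j hj
    by_contra h
    exact hSs (hF.1 ⟨i, h1', h2'⟩ ⟨j, (hbS j).resolve_right h, hj⟩)
  have hmem : S' ∈ US eta S' D := by
    refine ⟨1, one_ne_zero, ?_⟩
    rw [one_smul]
    exact Submodule.subset_span (Set.mem_insert _ _)
  have hne : S' ≠ S := by
    rintro rfl
    exact hnot hmem
  have ha : S - S' ∉ US eta S' D := by
    intro hmem2
    apply hnot
    have := (US eta S' D).add_mem hmem2 hmem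
    rwa [sub_add_cancel] at this
  have hF' := (hF1 O P L phi D S' eta hphi hbin hbS' hS0' (S - S') ha).2 (by
    intro j
    rcases hbS' j with h | h
    · exact Or.inr h
    · left
      rw [map_sub, Pi.sub_apply, h, hsub j h, sub_self])
  rw [sub_add_cancel] at hF'
  have haS : S - S' ∈ supp D := by
    intro h0
    have h0' : D.coeff (S - S') = 0 := h0
    rw [h0', zero_add] at hF'
    have : D.coeff S = 0 := by
      have h5 := congrArg (fun x => ((eta⁻¹ : (RO O)ˣ) : RO O) * x) hF'
      simpa using h5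
    exact hSs this
  have hl1 : 0 < lam S' := hlam S' hSs' hS0' hne
  have hl2 : 0 < lam (S - S') := by
    refine hlam _ haS (sub_ne_zero.2 hne.symm) ?_
    intro h
    exact hS0' (by simpa using h)
  rw [map_sub, hlS] at hl2
  omega

end Pool.Agent.B5.H17
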