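import Pool.Agent.Lib.MP_b5021c_nt.IfaceF

/-!
Row PLY: an element of `DD` is zero-free on the polydisc of the ports.
-/

namespace Pool.Agent.B5.H17

open Pool.Agent.B5

lemma cfz_eq {O : Type} [CommRing O] [Coef O] {P L : Type} [Fintype P] [DecidableEq P]
    [AddCommGroup L] (phi : L →+ (P → ℤ)) (D : AO O L) (hphi : Function.Injective phi) (z : Circle)
    (T : Finset P) (a : L) (ha : ∀ i, phi a i = if i ∈ T then 1 else 0) :
    cfz phi z D T = evR z (D.coeff a) := by
  unfold cfz
  have ha' : phi a = fun i => if i ∈ T then 1 else 0 := funext ha
  rw [Finsupp.sum, Finset.sum_eq_single a]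
  · rw [if_pos ha']
  · intro b _ hb
    rw [if_neg]
    intro h
    exact hb (hphi (h.trans ha'.symm))
  · intro hns
    rw [if_pos ha', Finsupp.notMem_support_iff.1 hns, map_zero]

/-- PLY. -/
theorem ply (hM : MultiS) (hSt : StSpecS) : PolyS := by
  classical
  intro O _ _ _ _ P L _ _ _ _ _ phi D hphi hbin hst z hz
  refine ⟨?_, fun T a ha => cfz_eq phi D hphi z T a ha⟩
  intro w hw
  have hsup : ∀ a ∈ (spec z D).coeff.support, a ∈ supp D := by
    intro a ha h0
    have h0' : D.coeff a = 0 := h0
    rw [Finsupp.mem_support_iff, spec_coeff, h0', map_zero] at ha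
    exact ha rfl
  have hstc : StableC (spec z D) := (hSt O L D).1 hst z hz
  have hnn : ∀ i, Nn (co phi i) (spec z D) := by
    intro i a ha
    change 0 ≤ phi a i
    rcases hbin a (hsup a ha) i with h | h <;> rw [h]
    exact zero_le_one
  have hpos : ∀ a ∈ (spec z D).coeff.support, a ≠ 0 → 0 < ∑ i, co phi i a := by
    intro a ha ha0
    have h1 : ∃ i, phi a i ≠ 0 := by
      by_contra hcon
      push Not at hcon
      apply ha0
      apply hphi
      rw [map_zero]
      exact funext hcon
    obtain ⟨i, hi⟩ := h1
    have hi' : co phi i a = 1 := (hbin a (hsup a ha) i).resolve_left hi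
    have h2 : co phi i a ≤ ∑ j, co phi j a :=
      Finset.single_le_sum (f := fun j => co phi j a) (fun j _ => hnn j a ha) (Finset.mem_univ i)
    omega
  have h := hM L (spec z D) hstc P (fun i => co phi i) hnn hpos 1 w hw
  have hz2 : spec z D = AddMonoidAlgebra.mapRingHom L (evR z) D := rfl
  have key : mae (cfz phi z D) w = mev (1 : AddChar L Circle) (fun i => co phi i) w (spec z D) := by
    unfold mev mae
    -- both sides as sums over the support of `D`
    have e1 : (spec z D).coeff.sum (fun a c => c * ((1 : AddChar L Circle) a : ℂ) *
        ∏ i, w i ^ (co phi i a).toNat) =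
        ∑ a ∈ D.coeff.support, evR z (D.coeff a) * ∏ i, w i ^ (co phi i a).toNat := by
      rw [Finsupp.sum]
      have e2 : ∀ a, (spec z D).coeff a * ((1 : AddChar L Circle) a : ℂ) *
          ∏ i, w i ^ (co phi i a).toNat = evR z (D.coeff a) * ∏ i, w i ^ (co phi i a).toNat := by
        intro a
        rw [spec_coeff, AddChar.one_apply, Circle.coe_one, mul_one]
      rw [Finset.sum_congr rfl fun a _ => e2 a]
      refine Finset.sum_subset ?_ ?_
      · intro a ha
        exact Finsupp.mem_support_iff.2 (hsup a ha)
      · intro a _ ha
        rw [Finsupp.notMem_support_iff, spec_coeff] at ha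
        rw [ha, zero_mul]
    rw [e1]
    have e3 : ∀ T : Finset P, cfz phi z D T * ∏ i ∈ T, w i =
        ∑ a ∈ D.coeff.support, if T = Finset.univ.filter (fun i => phi a i = 1) then
          evR z (D.coeff a) * ∏ i, w i ^ (co phi i a).toNat else 0 := by
      intro T
      unfold cfz
      rw [Finsupp.sum, Finset.sum_mul]
      refine Finset.sum_congr rfl fun a ha => ?_
      have hb := hbin a (Finsupp.mem_support_iff.1 ha)
      have hiff : (phi a = fun i => if i ∈ T then 1 else 0) ↔
          T = Finset.univ.filter (fun i => phi a i = 1) := by
        constructor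
        · intro h
          ext i
          rw [Finset.mem_filter, h]
          simp
        · intro h
          funext i
          rw [h]
          rcases hb i with h' | h' <;> simp [h']
      by_cases hT : phi a = fun i => if i ∈ T then 1 else 0
      · rw [if_pos hT, if_pos (hiff.1 hT)]
        congr 1
        rw [← Finset.prod_subset (Finset.subset_univ T)]
        · refine Finset.prod_congr rfl fun i hi => ?_
          have : co phi i a = 1 := by
            change phi a i = 1
            rw [hT]
            exact if_pos hi
          rw [this]
          simp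
        · intro i _ hi
          have : co phi i a = 0 := by
            change phi a i = 0
            rw [hT]
            exact if_neg hi
          rw [this]
          simp
      · rw [if_neg hT, if_neg (fun h => hT (hiff.2 h)), zero_mul]
    rw [Finset.sum_congr rfl fun T _ => e3 T, Finset.sum_comm]
    refine Finset.sum_congr rfl fun a _ => ?_
    rw [Finset.sum_ite_eq']
    simp
  rw [key]
  exact h

end Pool.Agent.B5.H17
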