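import Pool.Agent.Lib.MP_b5021c_nt.IfaceF

/-!
Row VCO: basic formulas for the closed coefficients.
-/

namespace Pool.Agent.B5.H17

open Pool.Agent.B5

open Classical in
/-- The weight of `b` in `vco eta S D a`. -/
noncomputable def wt {O : Type} [CommRing O] {L : Type} [AddCommGroup L] (eta : (RO O)ˣ) (S a b : L) :
    RO O :=
  if h : ∃ k : ℤ, b = a + k • S then ((eta ^ h.choose : (RO O)ˣ) : RO O) else 0

lemma vco_eq {O : Type} [CommRing O] {L : Type} [AddCommGroup L] (eta : (RO O)ˣ) (S : L)
    (D : AO O L) (a : L) : vco eta S D a = D.coeff.sum fun b q => q * wt eta S a b := by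
  unfold vco wt
  refine Finset.sum_congr rfl fun b _ => ?_
  beta_reduce
  split_ifs with h
  · rfl
  · rw [mul_zero]

lemma smul_inj {L : Type} [AddCommGroup L] [Module.Free ℤ L] {S : L} (hS : S ≠ 0) {k l : ℤ}
    (h : k • S = l • S) : k = l := by
  have h1 : (k - l) • S = 0 := by rw [sub_smul, h, sub_self]
  rcases smul_eq_zero.1 h1 with h2 | h2
  · omega
  · exact absurd h2 hS

lemma wt_of {O : Type} [CommRing O] {L : Type} [AddCommGroup L] [Module.Free ℤ L] (eta : (RO O)ˣ)
    {S : L} (hS : S ≠ 0) (a : L) (k : ℤ) :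
    wt eta S a (a + k • S) = ((eta ^ k : (RO O)ˣ) : RO O) := by
  have h : ∃ l : ℤ, a + k • S = a + l • S := ⟨k, rfl⟩
  unfold wt
  rw [dif_pos h]
  have : h.choose = k := (smul_inj hS (add_left_cancel h.choose_spec)).symm
  rw [this]

lemma wt_zero {O : Type} [CommRing O] {L : Type} [AddCommGroup L] (eta : (RO O)ˣ) {S a b : L}
    (h : ¬ ∃ k : ℤ, b = a + k • S) : wt eta S a b = 0 := by
  unfold wt
  rw [dif_neg h]

/-- VCO. -/
theorem vco_st : VcoS := by
  classical
  intro O _ _ _ _ P L _ _ _ _ _ phi D S eta hphi hbin hbS hS0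
  obtain ⟨i1, hi1⟩ : ∃ i, phi S i = 1 := by
    by_contra hcon
    push Not at hcon
    apply hS0
    apply hphi
    rw [map_zero]
    funext i
    exact (hbS i).resolve_right (hcon i)
  have hphk : ∀ (a : L) (k : ℤ) (i : P), phi (a + k • S) i = phi a i + k * phi S i := by
    intro a k i
    rw [map_add, map_zsmul, Pi.add_apply, Pi.smul_apply, smul_eq_mul]
  -- the sum reduced to a finite set of shifts
  refine ⟨?_, ?_, ?_, ?_, ?_⟩
  · intro a k
    rw [vco_eq, vco_eq, Finsupp.sum, Finsupp.sum, Finset.mul_sum]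
    refine Finset.sum_congr rfl fun b _ => ?_
    by_cases h : ∃ l : ℤ, b = a + l • S
    · obtain ⟨l, rfl⟩ := h
      rw [wt_of eta hS0 a l]
      have : a + l • S = (a + k • S) + (l - k) • S := by
        rw [sub_smul]
        abel
      rw [this, wt_of eta hS0, zpow_sub, Units.val_mul, ← zpow_neg]
      ring
    · rw [wt_zero eta h, wt_zero eta, mul_zero, mul_zero]
      rintro ⟨l, hl⟩
      apply h
      refine ⟨k + l, ?_⟩
      rw [hl, add_smul]
      abel
  · intro a ha
    rw [vco_eq, Finsupp.sum] at ha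
    obtain ⟨b, _, hb⟩ := Finset.exists_ne_zero_of_sum_ne_zero ha
    by_cases h : ∃ l : ℤ, b = a + l • S
    · obtain ⟨l, rfl⟩ := h
      refine ⟨l, ?_⟩
      intro h0
      rw [h0, zero_mul] at hb
      exact hb rfl
    · rw [wt_zero eta h, mul_zero] at hb
      exact absurd rfl hb
  · intro a hdis
    have ha1 : phi a i1 = 0 := (hdis i1).resolve_right (by rw [hi1]; exact one_ne_zero)
    have hne : a ≠ a + S := by
      intro h
      exact hS0 (by simpa using h.symm)
    rw [vco_eq, Finsupp.sum]
    have hsub : ∑ b ∈ D.coeff.support, D.coeff b * wt eta S a b =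
        ∑ b ∈ ({a, a + S} : Finset L), D.coeff b * wt eta S a b := by
      rw [← Finset.sum_subset (s₁ := D.coeff.support ∩ {a, a + S}) (s₂ := D.coeff.support)
        Finset.inter_subset_left, ← Finset.sum_subset (s₁ := D.coeff.support ∩ {a, a + S})
        (s₂ := {a, a + S}) Finset.inter_subset_right]
      · intro b hb hb'
        have : b ∉ D.coeff.support := fun h => hb' (Finset.mem_inter.2 ⟨h, hb⟩)
        rw [Finsupp.notMem_support_iff.1 this, zero_mul]
      · intro b hb hb'
        by_cases h : ∃ l : ℤ, b = a + l • S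
        · obtain ⟨l, rfl⟩ := h
          exfalso
          have h1 := hbin _ (Finsupp.mem_support_iff.1 hb) i1
          rw [hphk, ha1, hi1, zero_add, mul_one] at h1
          apply hb'
          refine Finset.mem_inter.2 ⟨hb, ?_⟩
          rcases h1 with rfl | rfl
          · simp
          · simp
        · rw [wt_zero eta h, mul_zero]
    rw [hsub, Finset.sum_pair hne]
    have e0 := wt_of eta hS0 a 0
    have e1 := wt_of eta hS0 a 1
    rw [zero_smul, add_zero, zpow_zero, Units.val_one] at e0
    rw [one_smul, zpow_one] at e1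
    rw [e0, e1]
    ring
  · rintro a hba ⟨i, hai, hSi⟩ ⟨j, haj, hSj⟩
    rw [vco_eq, Finsupp.sum]
    have e0 := wt_of eta hS0 a 0
    rw [zero_smul, add_zero, zpow_zero, Units.val_one] at e0
    have h2 : D.coeff a = D.coeff a * wt eta S a a := by rw [e0, mul_one]
    rw [h2]
    rw [Finset.sum_eq_single a]
    · intro b hb hne
      by_cases h : ∃ l : ℤ, b = a + l • S
      · obtain ⟨l, rfl⟩ := h
        exfalso
        have h1 := hbin _ (Finsupp.mem_support_iff.1 hb) i
        have h3 := hbin _ (Finsupp.mem_support_iff.1 hb) j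
        rw [hphk, hai, hSi] at h1
        rw [hphk, haj, hSj] at h3
        have hl : l = 0 := by omega
        rw [hl, zero_smul, add_zero] at hne
        exact hne rfl
      · rw [wt_zero eta h, mul_zero]
    · intro hns
      rw [Finsupp.notMem_support_iff.1 hns, zero_mul]
  · intro i0 h a
    have hcl : cl (co phi i0) S h eta D = ∑ b ∈ D.coeff.support,
        AddMonoidAlgebra.single (prj (co phi i0) S h b)
          (D.coeff b * ((eta ^ (co phi i0 b) : (RO O)ˣ) : RO O)) := by
      conv_lhs => rw [← AddMonoidAlgebra.sum_coeff_single D]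
      rw [Finsupp.sum, map_sum]
      refine Finset.sum_congr rfl fun b _ => ?_
      rw [cl_single]
    rw [hcl, vco_eq, Finsupp.sum, AddMonoidAlgebra.coeff_sum, Finsupp.finsetSum_apply]
    refine Finset.sum_congr rfl fun b _ => ?_
    rw [AddMonoidAlgebra.coeff_single, Finsupp.single_apply]
    have ha0 : co phi i0 (a : L) = 0 := a.2
    by_cases hb : prj (co phi i0) S h b = a
    · rw [if_pos hb]
      have hb' : b = (a : L) + (co phi i0 b) • S := by
        rw [← hb, prj_coe, sub_add_cancel]
      have := wt_of eta hS0 (a : L) (co phi i0 b)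
      rw [← hb'] at this
      rw [this]
    · rw [if_neg hb, wt_zero eta, mul_zero]
      rintro ⟨l, hl⟩
      apply hb
      apply Subtype.ext
      have hk : co phi i0 b = l := by
        rw [hl, map_add, map_zsmul, ha0, h, zero_add, smul_eq_mul, mul_one]
      rw [prj_coe, hk, hl, add_sub_cancel_right]

/-- VCO. -/
theorem vco : VcoS := vco_st

end Pool.Agent.B5.H17
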