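import Pool.Agent.Lib.MP_b5021c_nt.IfaceE3
import Pool.Agent.Lib.MP_b5021c_nt.B.H36.Evr

/-!
# Board b5, row NR3 (chapter E3)
-/

namespace Pool.Agent.B5.H17

open scoped LaurentPolynomial
open Polynomial
open Pool.Agent.B5 Pool.Agent.B5.H36

section

variable {O : Type} [CommRing O] [Coef O]

/-- the complex Laurent polynomial with the embedded coefficients -/
noncomputable def pc (p : RO O) : CA ℤ := AddMonoidAlgebra.mapRingHom ℤ (Coef.emb : O →+* ℂ) p

theorem pc_coeff (p : RO O) (k : ℤ) : (pc p).coeff k = Coef.emb (p.coeff k) := by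
  simp [pc]

theorem evC_pc (u : AddChar ℤ Circle) (p : RO O) : evC u (pc p) = evR (u 1) p := by
  rw [evC_apply, evR_eq]
  have h1 : (pc p).coeff = p.coeff.mapRange (Coef.emb : O →+* ℂ) (map_zero _) := by
    ext k
    rw [pc_coeff, Finsupp.mapRange_apply]
  rw [h1, Finsupp.sum_mapRange_index (by intro a; rw [zero_mul])]
  refine Finsupp.sum_congr ?_
  intro k _
  congr 1
  have h2 : u k = (u 1) ^ k := by
    have h3 := AddChar.map_zsmul_eq_zpow u k 1
    rwa [smul_eq_mul, mul_one] at h3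
  rw [h2, Circle.coe_zpow]

theorem rsh_coeff (p : RO O) (k : ℤ) : (rsh p).coeff k = Coef.conj (p.coeff (-k)) := by
  induction p using AddMonoidAlgebra.induction_linear with
  | zero => simp
  | add f g hf hg =>
    rw [map_add, AddMonoidAlgebra.coeff_add, Finsupp.add_apply, hf, hg,
      AddMonoidAlgebra.coeff_add, Finsupp.add_apply, map_add]
  | single n c =>
    rw [rsh_single, AddMonoidAlgebra.coeff_single, AddMonoidAlgebra.coeff_single]
    by_cases h : n = -k
    · subst h
      rw [neg_neg, Finsupp.single_eq_same, Finsupp.single_eq_same]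
    · have h2 : ¬ (-n = k) := fun h3 => h (by omega)
      rw [Finsupp.single_eq_of_ne' h2, Finsupp.single_eq_of_ne' h, map_zero]

end

theorem eq_zero_of_evC (hnn : Nn3S) (s : CA ℤ) (hs : ∀ u : AddChar ℤ Circle, evC u s = 0) :
    s = 0 := by
  by_contra h
  have h1 := (hnn ℤ s h (fun u => by rw [hs u]; simp)).1
  have h2 : -s ≠ 0 := neg_ne_zero.mpr h
  have h3 := (hnn ℤ (-s) h2 (fun u => by rw [map_neg, hs u]; simp)).1
  rw [AddMonoidAlgebra.coeff_neg, Finsupp.neg_apply, Complex.neg_re] at h3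
  linarith

theorem nr3 (hnn : Nn3S) : Nr3S := by
  intro O _ _ _ _ t ht hnt
  have hpc0 : pc t ≠ 0 := by
    intro h
    apply ht
    apply AddMonoidAlgebra.ext
    apply Finsupp.ext
    intro k
    have h1 : (pc t).coeff k = 0 := by rw [h]; simp
    rw [pc_coeff] at h1
    have h2 : t.coeff k = 0 := emb_inj (by rw [h1, map_zero])
    rw [h2]; simp
  have hreal : ∀ z : Circle, evR z (rsh t) = evR z t := by
    intro z
    rw [evR_rsh]
    exact Complex.conj_eq_iff_im.mpr (hnt z).1
  have hsymm : pc (rsh t) = pc t := by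
    have h1 : pc (rsh t) - pc t = 0 := by
      apply eq_zero_of_evC hnn
      intro u
      rw [map_sub, evC_pc, evC_pc, hreal, sub_self]
    exact sub_eq_zero.mp h1
  have hconj : ∀ k : ℤ, (Coef.emb (t.coeff (-k)) : ℂ) = (starRingEnd ℂ) (Coef.emb (t.coeff k)) := by
    intro k
    have h1 : (pc (rsh t)).coeff (-k) = (pc t).coeff (-k) := by rw [hsymm]
    rw [pc_coeff, pc_coeff, rsh_coeff, neg_neg, Coef.emb_conj] at h1
    exact h1.symm
  have him : (Coef.emb (t.coeff 0) : ℂ).im = 0 := by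
    have h1 := hconj 0
    rw [neg_zero] at h1
    exact Complex.conj_eq_iff_im.mp h1.symm
  have hmain := hnn ℤ (pc t) hpc0 (fun u => by rw [evC_pc]; exact hnt (u 1))
  rw [pc_coeff] at hmain
  have hlt : ∀ k : ℤ, k ≠ 0 → ‖(Coef.emb (t.coeff k) : ℂ)‖ < (Coef.emb (t.coeff 0) : ℂ).re := by
    intro k hk
    have h1 := hmain.2 k hk
    rwa [pc_coeff] at h1
  refine ⟨him, fun k hk => ⟨hlt k hk, hconj k⟩, ?_⟩
  by_contra hcon
  push Not at hcon
  obtain ⟨h1, h2⟩ := hcon
  set r := (Coef.emb (t.coeff 0) : ℂ).re with hr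
  have hre : (Coef.emb (t.coeff 0) : ℂ) = (r : ℂ) := Complex.ext (by simp [hr]) (by simp [him])
  have ht0 : t.coeff 0 ≠ 0 := by
    intro h3
    rw [h3, map_zero] at hre
    have : (r : ℂ) = 0 := hre.symm
    have h4 : r = 0 := by exact_mod_cast this
    have := hmain.1
    rw [h4] at this
    exact lt_irrefl _ this
  have hr1 : 1 ≤ r := by
    have h3 := Coef.one_le (t.coeff 0) ht0
    rw [hre, Complex.norm_real, Real.norm_eq_abs, abs_of_pos hmain.1] at h3
    exact h3
  have ht1 : t.coeff 0 = 1 := by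
    by_contra h3
    have h4 : t.coeff 0 - 1 ≠ 0 := sub_ne_zero.mpr h3
    have h5 := Coef.one_le (t.coeff 0 - 1) h4
    rw [map_sub, map_one, hre] at h5
    have h6 : ((r : ℂ) - 1) = ((r - 1 : ℝ) : ℂ) := by push_cast; ring
    rw [h6, Complex.norm_real, Real.norm_eq_abs, abs_of_nonneg (by linarith)] at h5
    linarith
  have hr2 : r = 1 := by
    rw [ht1, map_one] at hre
    have : (r : ℂ) = 1 := hre.symm
    exact_mod_cast this
  apply h1
  apply AddMonoidAlgebra.ext
  apply Finsupp.ext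
  intro k
  rw [AddMonoidAlgebra.one_def, AddMonoidAlgebra.coeff_single]
  by_cases hk : k = 0
  · subst hk
    rw [ht1, Finsupp.single_eq_same]
  · have h3 := hlt k hk
    rw [hr2] at h3
    have h4 : t.coeff k = 0 := by
      by_contra h5
      have h6 := Coef.one_le (t.coeff k) h5
      linarith
    rw [h4, Finsupp.single_eq_of_ne' (Ne.symm hk)]

end Pool.Agent.B5.H17
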