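import Pool.Agent.Lib.MP_b5021c_nt.IfaceE3

/-!
# Board b5, row UM3 (chapter E3)
-/

namespace Pool.Agent.B5.H17

open Polynomial
open Pool.Agent.MP_b5021c_nt (nz)
open Pool.Agent.B5

theorem um3 (hpc : Pc3S) : Um3S := by
  intro q f hq hqc hf hv
  set F : ℂ[X] := -(X * f) with hF
  have hF0 : F ≠ 0 := by
    rw [hF, neg_ne_zero]
    exact mul_ne_zero X_ne_zero hf
  have hre : ∀ z : ℂ, ‖z‖ = 1 → 0 ≤ (F.eval z * (starRingEnd ℂ) (q.eval z)).re := by
    intro z hz
    have h1 := hv z hz
    have hvz : (q + X * f).eval z = q.eval z - F.eval z := by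
      rw [hF]; simp
    rw [hvz] at h1
    set a := q.eval z
    set b := F.eval z
    have h2 : ‖a - b‖ ^ 2 = ‖a‖ ^ 2 - 2 * (b * (starRingEnd ℂ) a).re + ‖b‖ ^ 2 := by
      rw [← Complex.normSq_eq_norm_sq, ← Complex.normSq_eq_norm_sq, ← Complex.normSq_eq_norm_sq]
      simp only [Complex.normSq_apply, Complex.sub_re, Complex.sub_im, Complex.mul_re,
        Complex.conj_re, Complex.conj_im]
      ring
    have h3 : (a * (starRingEnd ℂ) (a - b)).re = ‖a‖ ^ 2 - (b * (starRingEnd ℂ) a).re := by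
      rw [← Complex.normSq_eq_norm_sq]
      simp only [Complex.normSq_apply, map_sub, Complex.mul_re, Complex.sub_re, Complex.sub_im,
        Complex.conj_re, Complex.conj_im]
      ring
    rw [h2, h3] at h1
    have h4 : 0 ≤ ‖b‖ ^ 2 := sq_nonneg _
    linarith
  have hnz : nz F ≤ 1 := (hpc q F hq hqc hre).2.2 hF0
  have hroots : F.roots = ({0} : Multiset ℂ) + f.roots := by
    rw [hF, roots_neg, roots_mul (mul_ne_zero X_ne_zero hf), roots_X]
  have hnz2 : nz F = 1 + nz f := by
    unfold nz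
    rw [hroots, Multiset.filter_add, Multiset.card_add]
    congr 1
    rw [Multiset.filter_singleton]
    simp
  have hnf : nz f = 0 := by omega
  intro s hs hfs
  have hmem : s ∈ f.roots.filter (fun z => ‖z‖ < 1) := by
    rw [Multiset.mem_filter]
    exact ⟨(mem_roots hf).mpr hfs, hs⟩
  have h5 : f.roots.filter (fun z => ‖z‖ < 1) = 0 := Multiset.card_eq_zero.mp hnf
  rw [h5] at hmem
  simp at hmem

end Pool.Agent.B5.H17
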